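import Mathlib

set_option autoImplicit false

open MeasureTheory Filter Topology Set Pointwise

namespace Pool.Agent.Results.MP_a80f1a_gt.Main

/-- The difference quotient (λ(A ⊕ δK) − λ(A)) / δ. -/
noncomputable def quo (K A : Set (Fin 3 → ℝ)) (δ : ℝ) : EReal :=
  ((((volume (A + δ • K)).toReal - (volume A).toReal) / δ : ℝ) : EReal)

/-- Lower K-surface area. -/
noncomputable def surfLo (K A : Set (Fin 3 → ℝ)) : EReal := liminf (quo K A) (𝓝[>] 0)

/-- Upper K-surface area. -/
noncomputable def surfHi (K A : Set (Fin 3 → ℝ)) : EReal := limsup (quo K A) (𝓝[>] 0)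

abbrev E := Fin 3 → ℝ

noncomputable def N (x : E) : ℝ := ∑ l, |x l|

def B (c : E) (s : ℝ) : Set E := {x | N (x - c) ≤ s}

lemma N_cont : Continuous N := by unfold N; fun_prop

lemma N_smul (t : ℝ) (x : E) : N (t • x) = |t| * N x := by
  simp [N, Finset.mul_sum, abs_mul]

lemma N_add (x y : E) : N (x + y) ≤ N x + N y := by
  simp only [N, ← Finset.sum_add_distrib]
  exact Finset.sum_le_sum fun l _ => abs_add_le _ _

lemma B_closed (c : E) (s : ℝ) : IsClosed (B c s) :=
  isClosed_le (N_cont.comp (by fun_prop)) continuous_const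

lemma B_meas (c : E) (s : ℝ) : MeasurableSet (B c s) := (B_closed c s).measurableSet

lemma le_N (x : E) (l : Fin 3) : |x l| ≤ N x :=
  Finset.single_le_sum (f := fun l => |x l|) (fun _ _ => abs_nonneg _) (Finset.mem_univ l)

lemma B_compact (c : E) (s : ℝ) : IsCompact (B c s) := by
  refine (isCompact_Icc (a := fun l => c l - s) (b := fun l => c l + s)).of_isClosed_subset
    (B_closed c s) fun x hx => ?_
  have h : ∀ l, |x l - c l| ≤ s := fun l => (le_N (x - c) l).trans hx
  exact ⟨fun l => by linarith [(abs_le.1 (h l)).1], fun l => by linarith [(abs_le.1 (h l)).2]⟩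

lemma B_fin (c : E) (s : ℝ) : volume (B c s) ≠ ⊤ := (B_compact c s).measure_lt_top.ne

lemma smul_K {s : ℝ} (hs : 0 < s) : s • B 0 1 = B 0 s := by
  ext x
  rw [mem_smul_set_iff_inv_smul_mem₀ hs.ne']
  simp only [B, mem_setOf_eq, sub_zero, N_smul, abs_of_pos (inv_pos.2 hs)]
  rw [inv_mul_le_iff₀ hs, mul_one]

lemma K_convex : Convex ℝ (B 0 1) := by
  intro x hx y hy a b ha hb hab
  simp only [B, mem_setOf_eq, sub_zero] at hx hy ⊢
  refine (N_add _ _).trans ?_
  rw [N_smul, N_smul, abs_of_nonneg ha, abs_of_nonneg hb]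
  nlinarith

lemma K_int : (0 : E) ∈ interior (B 0 1) := by
  rw [mem_interior_iff_mem_nhds]
  have : {x : E | N x < 1} ∈ 𝓝 (0 : E) :=
    (isOpen_lt N_cont continuous_const).mem_nhds (by simp [N])
  filter_upwards [this] with x hx
  simpa [B] using hx.le

noncomputable def V : ℝ := volume.real (B 0 1)

lemma V_pos : 0 < V :=
  ENNReal.toReal_pos (Measure.measure_pos_of_nonempty_interior _ ⟨0, K_int⟩).ne' (B_fin 0 1)

lemma vol_B (c : E) {s : ℝ} (hs : 0 < s) : volume.real (B c s) = s ^ 3 * V := by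
  have h : B c s = (fun x => x + -c) ⁻¹' (s • B 0 1) := by
    rw [smul_K hs]; ext x; simp [B, sub_eq_add_neg]
  rw [measureReal_def, h, measure_preimage_add_right, Measure.addHaar_smul_of_nonneg _ hs.le,
    ENNReal.toReal_mul, ENNReal.toReal_ofReal (by positivity)]
  simp [V, measureReal_def]

lemma third (i j : Fin 3) (h : j ≠ i) : ∃ k, k ≠ i ∧ k ≠ j ∧ (∀ l, l ≠ i → l ≠ j → l = k) ∧
    ∀ y : E, N y = |y i| + |y j| + |y k| := by
  obtain ⟨k, h1, h2, h3⟩ : ∃ k, k ≠ i ∧ k ≠ j ∧ ∀ l, l ≠ i → l ≠ j → l = k := by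
    revert i j; decide
  refine ⟨k, h1, h2, h3, fun y => ?_⟩
  have : (Finset.univ : Finset (Fin 3)) = {i, j, k} := by
    ext l; by_cases h4 : l = i <;> by_cases h5 : l = j <;> simp [h4, h5]; exact h3 l h4 h5
  rw [N, this, Finset.sum_insert (by simp [h.symm, h1.symm]), Finset.sum_pair h2.symm, add_assoc]

def sg (b : Bool) : ℝ := if b then 1 else -1

lemma sg_cases (b : Bool) : sg b = 1 ∨ sg b = -1 := by cases b <;> simp [sg]

noncomputable def pt (p : Fin 3 × Bool) : E := Pi.single p.1 (sg p.2)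

lemma inter_B (p : Fin 3 × Bool) (s : ℝ) :
    B (pt p) s ∩ B 0 s = B ((1 / 2 : ℝ) • pt p) (s - 1 / 2) := by
  obtain ⟨i, a⟩ := p
  have hj : i + 1 ≠ i := by revert i; decide
  obtain ⟨k, h1, h2, -, h4⟩ := third i (i + 1) hj
  ext x
  simp only [B, mem_inter_iff, mem_setOf_eq, h4, pt, Pi.sub_apply, Pi.smul_apply,
    Pi.single_eq_same, Pi.single_eq_of_ne hj, Pi.single_eq_of_ne h1, Pi.zero_apply, sub_zero,
    smul_eq_mul, mul_zero]
  generalize |x (i + 1)| = u
  generalize |x k| = v
  generalize x i = w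
  rcases sg_cases a with h | h <;> rw [h] <;> constructor
  · rintro ⟨h5, h6⟩
    rcases abs_cases (w - 1 / 2 * 1) with h7 | h7 <;>
      linarith [le_abs_self w, neg_abs_le (w - 1), h7.1]
  · intro h5
    constructor
    · rcases abs_cases (w - 1) with h7 | h7 <;>
        linarith [le_abs_self (w - 1 / 2 * 1), neg_abs_le (w - 1 / 2 * 1), h7.1]
    · rcases abs_cases w with h7 | h7 <;>
        linarith [le_abs_self (w - 1 / 2 * 1), neg_abs_le (w - 1 / 2 * 1), h7.1]
  · rintro ⟨h5, h6⟩
    rcases abs_cases (w - 1 / 2 * -1) with h7 | h7 <;>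
      linarith [neg_abs_le w, le_abs_self (w - -1), h7.1]
  · intro h5
    constructor
    · rcases abs_cases (w - -1) with h7 | h7 <;>
        linarith [le_abs_self (w - 1 / 2 * -1), neg_abs_le (w - 1 / 2 * -1), h7.1]
    · rcases abs_cases w with h7 | h7 <;>
        linarith [le_abs_self (w - 1 / 2 * -1), neg_abs_le (w - 1 / 2 * -1), h7.1]

lemma tube {i j : Fin 3} (h : j ≠ i) (c : ℝ) {δ : ℝ} (hδ : 0 < δ) {S : Set E}
    (hS : ∀ x ∈ S, |x i| ≤ 3 ∧ |x j + c * x i| ≤ δ ∧ ∀ k, k ≠ i → k ≠ j → |x k| ≤ δ) :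
    volume.real S ≤ 24 * δ ^ 2 := by
  set w : E := fun l => if l = i then 3 else δ with hw
  have hmp := Real.volume_preserving_transvectionStruct (⟨j, i, h, c⟩ :
    Matrix.TransvectionStruct (Fin 3) ℝ)
  have h1 : S ⊆ Matrix.toLin' (Matrix.transvection j i c) ⁻¹' Icc (-w) w := by
    intro x hx
    obtain ⟨h2, h3, h4⟩ := hS x hx
    have : ∀ l, |(Matrix.toLin' (Matrix.transvection j i c) x) l| ≤ w l := by
      intro l
      simp only [Matrix.toLin'_apply, Matrix.transvection, Matrix.add_mulVec, Matrix.one_mulVec,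
        Matrix.single_mulVec, Pi.add_apply, hw]
      by_cases hl : l = j
      · subst hl; simpa [h] using h3
      · rw [Function.update_of_ne hl]
        by_cases hl' : l = i
        · subst hl'; simpa using h2
        · simpa [hl'] using h4 l hl' hl
    exact ⟨fun l => (abs_le.1 (this l)).1, fun l => (abs_le.1 (this l)).2⟩
  have h2 : volume (Matrix.toLin' (Matrix.transvection j i c) ⁻¹' Icc (-w) w) =
      volume (Icc (-w) w) := hmp.measure_preimage measurableSet_Icc.nullMeasurableSet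
  have h3 : (volume (Icc (-w) w)).toReal = 24 * δ ^ 2 := by
    rw [Real.volume_Icc_pi_toReal (fun l => by
      simp only [hw, Pi.neg_apply]; split_ifs <;> linarith), Fin.prod_univ_three]
    fin_cases i <;> simp [hw] <;> ring
  rw [← h3, ← h2]
  exact ENNReal.toReal_mono (by rw [h2]; exact isCompact_Icc.measure_lt_top.ne) (measure_mono h1)

lemma pair {p q : Fin 3 × Bool} (h : p ≠ q) {δ : ℝ} (hδ : 0 < δ) (hδ1 : δ ≤ 1) :
    volume.real (B (pt p) (1 + δ) ∩ B (pt q) (1 + δ)) ≤ 24 * δ ^ 2 := by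
  obtain ⟨i, a⟩ := p
  obtain ⟨j, b⟩ := q
  by_cases hij : j = i
  · subst hij
    have hab : sg b = - sg a := by
      cases a <;> cases b <;> simp_all [sg]
    have hj : j + 1 ≠ j := by clear h; revert j; decide
    obtain ⟨k, h1, h2, h3, h4⟩ := third j (j + 1) hj
    refine tube hj 0 hδ ?_
    rintro x ⟨h5, h6⟩
    simp only [B, mem_setOf_eq, h4, pt, Pi.sub_apply, Pi.single_eq_same, Pi.single_eq_of_ne hj,
      Pi.single_eq_of_ne h1, sub_zero, hab] at h5 h6
    have := abs_nonneg (x (j + 1)); have := abs_nonneg (x k)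
    have := le_abs_self (x j - sg a); have := neg_abs_le (x j - sg a)
    have := le_abs_self (x j - -sg a); have := neg_abs_le (x j - -sg a)
    refine ⟨?_, ?_, fun l h7 h8 => ?_⟩
    · rw [abs_le]; rcases sg_cases a with h | h <;> constructor <;> linarith
    · rw [zero_mul, add_zero]; rcases sg_cases a with h | h <;> linarith
    · rw [h3 l h7 h8]; rcases sg_cases a with h | h <;> linarith
  · obtain ⟨k, h1, h2, h3, h4⟩ := third i j hij
    refine tube hij (-(sg a * sg b)) hδ ?_
    rintro x ⟨h5, h6⟩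
    simp only [B, mem_setOf_eq, h4, pt, Pi.sub_apply, Pi.single_eq_same, Pi.single_eq_of_ne hij,
      Pi.single_eq_of_ne (Ne.symm hij), Pi.single_eq_of_ne h1, Pi.single_eq_of_ne h2,
      sub_zero] at h5 h6
    have := abs_nonneg (x j); have := abs_nonneg (x k)
    have := le_abs_self (x i - sg a); have := neg_abs_le (x i - sg a)
    have := le_abs_self (x j - sg b); have := neg_abs_le (x j - sg b)
    have := le_abs_self (x i); have := neg_abs_le (x i)
    have := le_abs_self (x j); have := neg_abs_le (x j)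
    refine ⟨?_, ?_, fun l h7 h8 => ?_⟩
    · rw [abs_le]; rcases sg_cases a with h | h <;> constructor <;> linarith
    · rw [abs_le]
      rcases sg_cases a with h | h <;> rcases sg_cases b with h' | h' <;>
        rw [h, h'] <;> constructor <;> linarith
    · rw [h3 l h7 h8]
      rcases sg_cases a with h | h <;> rcases sg_cases b with h' | h' <;> linarith

noncomputable def A : Finset E := insert 0 (Finset.univ.image pt)

lemma A_add {s : ℝ} (hs : 0 < s) : (A : Set E) + s • B 0 1 = B 0 s ∪ ⋃ p, B (pt p) s := by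
  rw [smul_K hs]
  ext x
  simp only [A, Finset.coe_insert, Finset.coe_image, Finset.coe_univ, image_univ, Set.mem_add,
    mem_insert_iff, mem_range, mem_union, mem_iUnion]
  constructor
  · rintro ⟨a, rfl | ⟨p, rfl⟩, y, hy, rfl⟩
    · left; simpa using hy
    · right; exact ⟨p, by simpa [B] using hy⟩
  · rintro (h | ⟨p, h⟩)
    · exact ⟨0, Or.inl rfl, x, h, zero_add x⟩
    · exact ⟨pt p, Or.inr ⟨p, rfl⟩, x - pt p, by simpa [B] using h, by simp⟩

lemma sd (p : Fin 3 × Bool) {s : ℝ} (hs : 1 ≤ s) :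
    volume.real (B (pt p) s \ B 0 s) = (s ^ 3 - (s - 1 / 2) ^ 3) * V := by
  have := measureReal_sdiff_add_inter (μ := volume) (s := B (pt p) s) (B_meas 0 s) (B_fin _ _)
  rw [inter_B, vol_B _ (by linarith), vol_B _ (by linarith)] at this
  linarith

lemma upper : volume.real (B 0 1 ∪ ⋃ p, B (pt p) 1) ≤ 25 / 4 * V := by
  have : B 0 1 ∪ ⋃ p, B (pt p) 1 = B 0 1 ∪ ⋃ p, (B (pt p) 1 \ B 0 1) := by
    rw [← iUnion_sdiff, union_sdiff_self]
  rw [this]
  refine (measureReal_union_le _ _).trans ?_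
  refine (add_le_add le_rfl (measureReal_iUnion_fintype_le _)).trans ?_
  simp only [sd _ le_rfl, vol_B _ one_pos, Finset.sum_const, Finset.card_univ, Fintype.card_prod,
    Fintype.card_fin, Fintype.card_bool, nsmul_eq_mul]
  norm_num
  linarith

lemma lower {δ : ℝ} (hδ : 0 < δ) (hδ1 : δ ≤ 1) :
    (7 * (1 + δ) ^ 3 - 6 * (1 / 2 + δ) ^ 3) * V - 864 * δ ^ 2 ≤
      volume.real (B 0 (1 + δ) ∪ ⋃ p, B (pt p) (1 + δ)) := by
  set s := 1 + δ with hs
  set T : Fin 3 × Bool → Set E := fun p => ⋃ q, ⋃ (_ : q ≠ p), B (pt q) s ∩ B (pt p) s with hT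
  have hTm : ∀ p, MeasurableSet (T p) := fun p =>
    MeasurableSet.iUnion fun q => MeasurableSet.iUnion fun _ => (B_meas _ _).inter (B_meas _ _)
  have hTs : ∀ p, T p ⊆ B (pt p) s := fun p =>
    iUnion_subset fun q => iUnion_subset fun _ => inter_subset_right
  have hTv : ∀ p, volume.real (T p) ≤ 144 * δ ^ 2 := by
    intro p
    refine (measureReal_iUnion_fintype_le _).trans ?_
    refine (Finset.sum_le_card_nsmul _ _ (24 * δ ^ 2) fun q _ => ?_).trans ?_
    · by_cases h : q = p
      · simp [h]; positivity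
      · simpa [h] using pair h hδ hδ1
    · simp; linarith
  set D : Fin 3 × Bool → Set E := fun p => (B (pt p) s \ B 0 s) \ T p with hD
  have hDm : ∀ p, MeasurableSet (D p) := fun p => ((B_meas _ _).diff (B_meas _ _)).diff (hTm p)
  have hDs : ∀ p, D p ⊆ B (pt p) s := fun p x hx => hx.1.1
  have hDf : ∀ p, volume (D p) ≠ ⊤ := fun p => measure_ne_top_of_subset (hDs p) (B_fin _ _)
  have hDv : ∀ p, (s ^ 3 - (s - 1 / 2) ^ 3) * V - 144 * δ ^ 2 ≤ volume.real (D p) := by
    intro p
    have := le_measureReal_sdiff (μ := volume) (s₁ := B (pt p) s \ B 0 s) (s₂ := T p)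
      (measure_ne_top_of_subset (hTs p) (B_fin _ _))
    rw [sd p (by linarith)] at this
    linarith [hTv p]
  have hdis : Pairwise (Function.onFun Disjoint D) := by
    intro p q hpq
    refine Set.disjoint_left.2 fun x hx hx' => hx'.2 ?_
    simp only [hT, mem_iUnion]
    exact ⟨p, hpq, hx.1.1, hx'.1.1⟩
  have hU : volume (⋃ p, B (pt p) s) ≠ ⊤ :=
    (isCompact_iUnion fun p => B_compact _ _).measure_lt_top.ne
  have h1 : volume.real (B 0 s ∪ ⋃ p, D p) = s ^ 3 * V + ∑ p, volume.real (D p) := by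
    rw [measureReal_union _ (MeasurableSet.iUnion hDm) (B_fin _ _)
      (measure_ne_top_of_subset (iUnion_mono hDs) hU), measureReal_iUnion_fintype hdis hDm hDf,
      vol_B _ (by linarith)]
    exact disjoint_iUnion_right.2 fun p => Set.disjoint_left.2 fun x hx hx' => hx'.1.2 hx
  have h2 : volume.real (B 0 s ∪ ⋃ p, D p) ≤ volume.real (B 0 s ∪ ⋃ p, B (pt p) s) :=
    measureReal_mono (union_subset_union_right _ (iUnion_mono hDs))
      (measure_union_lt_top (B_fin _ _).lt_top hU.lt_top).ne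
  have h3 := Finset.card_nsmul_le_sum Finset.univ _ _ fun p _ => hDv p
  simp only [Finset.card_univ, Fintype.card_prod, Fintype.card_fin, Fintype.card_bool,
    nsmul_eq_mul] at h3
  have h4 : s - 1 / 2 = 1 / 2 + δ := by rw [hs]; ring
  rw [h4] at h3
  push_cast at h3
  linarith

theorem result : ∃ (K : Set (Fin 3 → ℝ)) (A : Finset (Fin 3 → ℝ)),
    IsCompact K ∧ Convex ℝ K ∧ -K = K ∧ (interior K).Nonempty ∧
    0 ∈ A ∧ (A : Set (Fin 3 → ℝ)) ⊆ K ∧
    surfHi K ((2:ℝ) • K) < surfLo K ((A : Set (Fin 3 → ℝ)) + K) := by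
  have hV := V_pos
  refine ⟨B 0 1, A, B_compact _ _, K_convex, ?_, ⟨0, K_int⟩, by simp [A], ?_, ?_⟩
  · ext x; simp [B, N]
  · intro x hx
    simp only [A, Finset.coe_insert, Finset.coe_image, Finset.coe_univ, image_univ,
      mem_insert_iff, mem_range] at hx
    rcases hx with rfl | ⟨⟨i, a⟩, rfl⟩
    · exact interior_subset K_int
    · have hj : i + 1 ≠ i := by revert i; decide
      obtain ⟨k, h1, h2, -, h4⟩ := third i (i + 1) hj
      simp only [B, mem_setOf_eq, h4, pt, sub_zero, Pi.single_eq_same, Pi.single_eq_of_ne hj,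
        Pi.single_eq_of_ne h1]
      rcases sg_cases a with h | h <;> rw [h] <;> norm_num
  · have hm : Ioo (0:ℝ) (min (1 / 10) (V / 864)) ∈ 𝓝[>] (0:ℝ) :=
      Ioo_mem_nhdsGT (lt_min (by norm_num) (by positivity))
    have h1 : surfHi (B 0 1) ((2:ℝ) • B 0 1) ≤ ((13 * V : ℝ) : EReal) := by
      refine limsup_le_of_le (by isBoundedDefault) ?_
      filter_upwards [hm] with δ hδ
      have h0 := hδ.1
      have h2 := hδ.2.trans_le (min_le_left _ _)
      rw [quo, EReal.coe_le_coe_iff, ← K_convex.add_smul (by norm_num) h0.le,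
        smul_K (by linarith), smul_K (by norm_num), ← measureReal_def, ← measureReal_def,
        vol_B _ (by linarith), vol_B _ (by norm_num), div_le_iff₀ h0]
      have : (2 + δ) ^ 3 - 2 ^ 3 ≤ 13 * δ := by nlinarith [mul_pos h0 h0]
      nlinarith
    have h2 : ((14 * V : ℝ) : EReal) ≤ surfLo (B 0 1) ((A : Set E) + B 0 1) := by
      refine le_liminf_of_le (by isBoundedDefault) ?_
      filter_upwards [hm] with δ hδ
      have h0 := hδ.1
      have h2 := hδ.2.trans_le (min_le_left _ _)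
      have h3 := hδ.2.trans_le (min_le_right _ _)
      rw [lt_div_iff₀ (by norm_num)] at h3
      have e1 : (A : Set E) + B 0 1 + δ • B 0 1 = A + (1 + δ) • B 0 1 := by
        rw [K_convex.add_smul zero_le_one h0.le, one_smul, add_assoc]
      have e2 : (A : Set E) + B 0 1 = B 0 1 ∪ ⋃ p, B (pt p) 1 := by
        rw [← A_add one_pos, one_smul]
      rw [quo, EReal.coe_le_coe_iff, e1, e2, A_add (by linarith), ← measureReal_def,
        ← measureReal_def, le_div_iff₀ h0]
      have h4 := lower h0 (by linarith)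
      have h5 := upper
      have : 16 * δ ≤ 7 * (1 + δ) ^ 3 - 6 * (1 / 2 + δ) ^ 3 - 25 / 4 := by
        nlinarith [mul_pos h0 h0, mul_pos h0 (mul_pos h0 h0)]
      nlinarith [mul_le_mul_of_nonneg_right this hV.le, mul_pos h0 hV]
    refine h1.trans_lt (lt_of_lt_of_le ?_ h2)
    rw [EReal.coe_lt_coe_iff]; linarith

end Pool.Agent.Results.MP_a80f1a_gt.Main
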